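import Pool.Agent.J4H20.LV.Stm

set_option autoImplicit false

/-! Piece AR of project LV: the arithmetic data for every signature. -/

namespace Pool.Agent.J4H51.LV

open Polynomial Pool.Agent.J4H20.LV

/-! ### scaling -/

/-- `p (Λ X) / Λ ^ N` -/
noncomputable def sc (p : ℝ[X]) (Λ : ℝ) (N : ℕ) : ℝ[X] := C ((Λ ^ N)⁻¹) * p.comp (C Λ * X)

theorem sc_coeff (p : ℝ[X]) (Λ : ℝ) (N n : ℕ) : (sc p Λ N).coeff n = (Λ ^ N)⁻¹ * (p.coeff n * Λ ^ n) := by
  rw [sc, coeff_C_mul, comp_C_mul_X_coeff]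

theorem sc_eval (p : ℝ[X]) (Λ : ℝ) (N : ℕ) (x : ℝ) : (sc p Λ N).eval x = (Λ ^ N)⁻¹ * p.eval (Λ * x) := by
  simp [sc, eval_comp]

theorem sc_monic {p : ℝ[X]} {Λ : ℝ} (hΛ : 0 < Λ) (hp : p.Monic) :
    (sc p Λ p.natDegree).Monic ∧ (sc p Λ p.natDegree).natDegree = p.natDegree := by
  have h1 : (sc p Λ p.natDegree).coeff p.natDegree = 1 := by
    rw [sc_coeff, hp.coeff_natDegree, one_mul, inv_mul_cancel₀ (by positivity)]
  have h2 : (sc p Λ p.natDegree).natDegree ≤ p.natDegree := by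
    rw [natDegree_le_iff_coeff_eq_zero]
    intro n hn
    rw [sc_coeff, coeff_eq_zero_of_natDegree_lt hn]
    simp
  refine ⟨monic_of_natDegree_le_of_coeff_eq_one _ h2 h1, ?_⟩
  exact natDegree_eq_of_le_of_coeff_ne_zero h2 (by rw [h1]; exact one_ne_zero)

/-- the real count -/
theorem count (m e j ρ : ℕ) (b : Fin m × Fin e → ℝ) (h₀ : ℝ[X]) (σ₀ δ : ℝ) (hje : j < e)
    (hst : ∀ (b' : Fin m × Fin e → ℝ) (g' r' h' : ℝ[X]) (σ' : ℝ), g'.Monic →
      g'.natDegree = e → h'.Monic → h'.natDegree = j → r'.degree < ((m - 1) * e : ℕ) →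
      ∏ i, (X - C (b' i)) = g' ^ m + r' → (∀ i, |b' i - b i| < δ) →
      (∀ i, |h'.coeff i - h₀.coeff i| < δ) → |σ' - σ₀| < δ →
      {x : ℝ | (g'.eval x + σ' * h'.eval x) ^ m = g'.eval x ^ m + r'.eval x}.ncard = ρ)
    (hδ : 0 < δ) (hh₀ : h₀.natDegree = j)
    (a : Fin m × Fin e → ℝ) (g r h : ℝ[X]) (Λ : ℝ) (hΛ : 0 < Λ) (hg : g.Monic) (hgn : g.natDegree = e)
    (hh : h.Monic) (hhn : h.natDegree = j) (hr : r.degree < ((m - 1) * e : ℕ))
    (hf : ∏ i, (X - C (a i)) = g ^ m + r) (ha : ∀ i, |a i / Λ - b i| < δ)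
    (hc : ∀ i ≤ j, |h.coeff i / Λ ^ (j - i) - h₀.coeff i| < δ) (σ : ℝ)
    (hσ : |σ / Λ ^ (e - j) - σ₀| < δ) :
    {x : ℝ | (g.eval x + σ * h.eval x) ^ m = g.eval x ^ m + r.eval x}.ncard = ρ := by
  have hΛe : ∀ n : ℕ, (Λ : ℝ) ^ n ≠ 0 := fun n => by positivity
  obtain ⟨g1, g2⟩ := sc_monic hΛ hg
  obtain ⟨h1, h2⟩ := sc_monic hΛ hh
  rw [hgn] at g1 g2
  rw [hhn] at h1 h2
  have hr' : (sc r Λ (m * e)).degree < ((m - 1) * e : ℕ) := by
    rw [degree_lt_iff_coeff_zero]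
    intro n hn
    rw [sc_coeff, (degree_lt_iff_coeff_zero _ _).1 hr n hn]
    simp
  have hf' : ∏ i, (X - C (a i / Λ)) = sc g Λ e ^ m + sc r Λ (m * e) := by
    have e1 : (∏ i, (X - C (a i))).comp (C Λ * X) = (g ^ m + r).comp (C Λ * X) := by rw [hf]
    rw [prod_comp, add_comp, pow_comp] at e1
    have e2 : ∀ i, (X - C (a i)).comp (C Λ * X) = C Λ * (X - C (a i / Λ)) := by
      intro i
      rw [sub_comp, X_comp, C_comp, mul_sub, ← C_mul, mul_div_cancel₀ _ hΛ.ne']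
    rw [Finset.prod_congr rfl (fun i _ => e2 i), Finset.prod_mul_distrib, Finset.prod_const] at e1
    have e3 : (Finset.univ : Finset (Fin m × Fin e)).card = m * e := by simp
    rw [e3] at e1
    have e4 : C ((Λ ^ (m * e))⁻¹) * C Λ ^ (m * e) = (1 : ℝ[X]) := by
      rw [← C_pow, ← C_mul, inv_mul_cancel₀ (hΛe _), C_1]
    calc ∏ i, (X - C (a i / Λ)) = C ((Λ ^ (m * e))⁻¹) * (C Λ ^ (m * e) * ∏ i, (X - C (a i / Λ))) := by
          rw [← mul_assoc, e4, one_mul]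
      _ = C ((Λ ^ (m * e))⁻¹) * (g.comp (C Λ * X) ^ m + r.comp (C Λ * X)) := by rw [e1]
      _ = sc g Λ e ^ m + sc r Λ (m * e) := by
          rw [sc, sc, mul_pow, ← C_pow, mul_add, inv_pow, ← pow_mul, mul_comm e m]
  have key := hst (fun i => a i / Λ) (sc g Λ e) (sc r Λ (m * e)) (sc h Λ j) (σ / Λ ^ (e - j)) g1 g2 h1 h2
    hr' hf' ha (fun i => by
      rw [sc_coeff]
      rcases le_or_gt i j with hij | hij
      · have e5 : (Λ ^ j)⁻¹ * (h.coeff i * Λ ^ i) = h.coeff i / Λ ^ (j - i) := by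
          have e6 : Λ ^ j = Λ ^ (j - i) * Λ ^ i := by rw [← pow_add]; congr 1; omega
          rw [e6]
          have := hΛe i
          have := hΛe (j - i)
          field_simp
        rw [e5]
        exact hc i hij
      · rw [coeff_eq_zero_of_natDegree_lt (by omega), coeff_eq_zero_of_natDegree_lt (by omega)]
        simpa using hδ) hσ
  rw [← key]
  have e7 : {x : ℝ | (g.eval x + σ * h.eval x) ^ m = g.eval x ^ m + r.eval x} =
      (fun y : ℝ => Λ * y) '' {x : ℝ | ((sc g Λ e).eval x + σ / Λ ^ (e - j) * (sc h Λ j).eval x) ^ m =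
        (sc g Λ e).eval x ^ m + (sc r Λ (m * e)).eval x} := by
    ext x
    simp only [Set.mem_setOf_eq, Set.mem_image]
    have e8 : ∀ y : ℝ, ((sc g Λ e).eval y + σ / Λ ^ (e - j) * (sc h Λ j).eval y) ^ m =
        (sc g Λ e).eval y ^ m + (sc r Λ (m * e)).eval y ↔
        (g.eval (Λ * y) + σ * h.eval (Λ * y)) ^ m = g.eval (Λ * y) ^ m + r.eval (Λ * y) := by
      intro y
      rw [sc_eval, sc_eval, sc_eval]
      have e9 : (Λ ^ e)⁻¹ * g.eval (Λ * y) + σ / Λ ^ (e - j) * ((Λ ^ j)⁻¹ * h.eval (Λ * y)) =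
          (Λ ^ e)⁻¹ * (g.eval (Λ * y) + σ * h.eval (Λ * y)) := by
        have e10 : Λ ^ e = Λ ^ (e - j) * Λ ^ j := by rw [← pow_add]; congr 1; omega
        rw [e10]
        have := hΛe j
        have := hΛe (e - j)
        field_simp
      rw [e9, mul_pow, mul_pow, inv_pow, ← pow_mul, mul_comm e m, ← mul_add]
      constructor
      · intro h
        exact mul_left_cancel₀ (inv_ne_zero (hΛe _)) h
      · intro h
        rw [h]
    constructor
    · intro hx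
      refine ⟨x / Λ, ?_, by field_simp⟩
      rw [e8, mul_div_cancel₀ _ hΛ.ne']
      exact hx
    · rintro ⟨y, hy, rfl⟩
      exact (e8 y).1 hy
  rw [e7, Set.ncard_image_of_injective _ (fun a b hab => mul_left_cancel₀ hΛ.ne' hab)]

/-! ### arithmetic -/

theorem cdvd (T : ℕ) (p : ℤ[X]) : C (T : ℤ) ∣ p ↔ p.map (Int.castRingHom (ZMod T)) = 0 := by
  rw [C_dvd_iff_dvd_coeff]
  constructor
  · intro h
    ext n
    rw [coeff_map, coeff_zero]
    exact (ZMod.intCast_zmod_eq_zero_iff_dvd _ _).2 (h n)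
  · intro h n
    have h1 := congrArg (fun q => q.coeff n) h
    simp only [coeff_map, coeff_zero] at h1
    exact (ZMod.intCast_zmod_eq_zero_iff_dvd _ _).1 h1

/-- one of the two choices is not divisible by `T ^ 2` -/
theorem two_choices (T m : ℕ) (hT : T.Prime) (hTm : ¬ T ∣ m) (x₀ x₁ y : ℤ)
    (h0 : (T : ℤ) ∣ x₀ - 1) (h1 : (T : ℤ) ^ 2 ∣ x₁ - x₀ - T) :
    ¬ (T : ℤ) ^ 2 ∣ x₀ ^ m - y ∨ ¬ (T : ℤ) ^ 2 ∣ x₁ ^ m - y := by
  by_contra hcon
  push Not at hcon
  obtain ⟨h2, h3⟩ := hcon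
  have h4 : (T : ℤ) ^ 2 ∣ x₁ ^ m - x₀ ^ m := by
    have e1 : x₁ ^ m - x₀ ^ m = (x₁ ^ m - y) - (x₀ ^ m - y) := by ring
    rw [e1]
    exact dvd_sub h3 h2
  obtain ⟨z, hz⟩ := h1
  have h5 : x₁ - x₀ = T * (1 + T * z) := by linear_combination hz
  rw [← geom_sum₂_mul (x := x₁) (y := x₀) m, h5] at h4
  have hT0 : (T : ℤ) ≠ 0 := by exact_mod_cast hT.ne_zero
  have h6 : (T : ℤ) ∣ (∑ i ∈ Finset.range m, x₁ ^ i * x₀ ^ (m - 1 - i)) * (1 + T * z) := by
    obtain ⟨w, hw⟩ := h4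
    refine ⟨w, ?_⟩
    apply mul_left_cancel₀ hT0
    linear_combination hw
  haveI : Fact T.Prime := ⟨hT⟩
  have h7 := (ZMod.intCast_zmod_eq_zero_iff_dvd _ T).2 h6
  have hx0 : ((x₀ : ℤ) : ZMod T) = 1 := by
    have := (ZMod.intCast_zmod_eq_zero_iff_dvd _ T).2 h0
    push_cast at this
    exact sub_eq_zero.1 this
  have hx1 : ((x₁ : ℤ) : ZMod T) = 1 := by
    have : ((x₁ : ℤ) : ZMod T) = ((x₀ + T * (1 + T * z) : ℤ) : ZMod T) := by
      congr 1
      linear_combination h5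
    rw [this]
    push_cast
    rw [hx0, ZMod.natCast_self]
    ring
  push_cast at h7
  rw [hx0, hx1] at h7
  simp only [one_pow, mul_one, Finset.sum_const, Finset.card_range, nsmul_eq_mul,
    ZMod.natCast_self, zero_mul, add_zero] at h7
  exact hTm ((ZMod.natCast_eq_zero_iff _ _).1 h7)

/-- the final choice of `h` and `s` modulo `T ^ 2` -/
theorem choice (m e j T W : ℕ) (hT : T.Prime) (hTm : ¬ T ∣ m) (hW : 0 < W) (hTW : Nat.Coprime T W)
    (hz : S_HZ) (h : ℝ[X]) (h₀ : ℤ[X]) (δ : ℝ) (hh : h.Monic) (hhn : h.natDegree = j) (hh0 : h₀.Monic)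
    (hhn0 : h₀.natDegree = j) (hδ : 0 < δ) : ∃ Λ₀ : ℝ, 0 < Λ₀ ∧ ∀ Λ : ℝ, Λ₀ < Λ → ∀ g y : ℤ,
      (T : ℤ) ∣ g + h₀.eval 1 - 1 →
      ∃ (h' : ℤ[X]) (s : ℤ), h'.Monic ∧ h'.natDegree = j ∧ C (T : ℤ) ∣ h' - h₀ ∧ (T : ℤ) ∣ s - 1 ∧
        (W : ℤ) ∣ h'.eval 0 - 1 ∧ ¬ (T : ℤ) ^ 2 ∣ (g + s * h'.eval 1) ^ m - y ∧
        ∀ i ≤ j, |(h'.coeff i : ℝ) / Λ ^ (j - i) - h.coeff i| < δ := by
  have hdC : ∀ p : ℤ[X], C ((T : ℤ) ^ 2) ∣ p → C (T : ℤ) ∣ p := fun p hp =>
    (map_dvd C (Dvd.intro_left _ (by ring : (T : ℤ) * T = T ^ 2))).trans hp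
  have hev : ∀ (c : ℤ) (p : ℤ[X]), C c ∣ p → c ∣ p.eval 1 := by
    rintro c p ⟨q, rfl⟩
    rw [eval_mul, eval_C]
    exact dvd_mul_right _ _
  obtain ⟨Λ₁, hΛ₁, hA⟩ := hz j T W h h₀ δ hT.pos hW hTW hh hhn hh0 hhn0 hδ
  rcases Nat.eq_zero_or_pos j with hj | hj
  · refine ⟨Λ₁, hΛ₁, fun Λ hΛ g y hg => ?_⟩
    obtain ⟨h', a1, a2, a3, a4, a5⟩ := hA Λ hΛ
    have e1 : h' = 1 := a1.natDegree_eq_zero.1 (a2.trans hj)
    have hg0 : h₀.eval 1 = 1 := by
      rw [hh0.natDegree_eq_zero.1 (hhn0.trans hj), eval_one]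
    rw [hg0] at hg
    rcases two_choices T m hT hTm (g + 1) (g + (1 + T)) y (by simpa using hg) (by
      have : g + (1 + (T : ℤ)) - (g + 1) - T = 0 := by ring
      rw [this]
      exact dvd_zero _) with h1 | h1
    · refine ⟨h', 1, a1, a2, hdC _ a3, by simp, a4, ?_, a5⟩
      rw [e1, eval_one, mul_one]
      exact h1
    · refine ⟨h', 1 + T, a1, a2, hdC _ a3, by simp, a4, ?_, a5⟩
      rw [e1, eval_one, mul_one]
      exact h1
  · have hB0 : (h₀ + C (T : ℤ)).Monic := by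
      apply hh0.add_of_left
      calc (C (T : ℤ)).degree ≤ 0 := degree_C_le
        _ < h₀.degree := by
          rw [← natDegree_pos_iff_degree_pos, hhn0]
          exact hj
    have hBn : (h₀ + C (T : ℤ)).natDegree = j := by rw [natDegree_add_C, hhn0]
    obtain ⟨Λ₂, hΛ₂, hB⟩ := hz j T W h (h₀ + C (T : ℤ)) δ hT.pos hW hTW hh hhn hB0 hBn hδ
    refine ⟨max Λ₁ Λ₂, lt_max_of_lt_left hΛ₁, fun Λ hΛ g y hg => ?_⟩
    obtain ⟨h', a1, a2, a3, a4, a5⟩ := hA Λ (lt_of_le_of_lt (le_max_left _ _) hΛ)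
    obtain ⟨h'', b1, b2, b3, b4, b5⟩ := hB Λ (lt_of_le_of_lt (le_max_right _ _) hΛ)
    have e1 := hev _ _ a3
    have e2 := hev _ _ b3
    rw [eval_sub] at e1 e2
    rw [eval_add, eval_C] at e2
    have hTT : (T : ℤ) ∣ (T : ℤ) ^ 2 := Dvd.intro_left _ (by ring : (T : ℤ) * T = T ^ 2)
    have e3 : (T : ℤ) ∣ g + h'.eval 1 - 1 := by
      have := dvd_add hg (hTT.trans e1)
      have e4 : g + h₀.eval 1 - 1 + (h'.eval 1 - h₀.eval 1) = g + h'.eval 1 - 1 := by ring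
      rwa [e4] at this
    have e5 : (T : ℤ) ^ 2 ∣ g + h''.eval 1 - (g + h'.eval 1) - T := by
      have := dvd_sub e2 e1
      have e4 : h''.eval 1 - (h₀.eval 1 + T) - (h'.eval 1 - h₀.eval 1) =
        g + h''.eval 1 - (g + h'.eval 1) - T := by ring
      rwa [e4] at this
    rcases two_choices T m hT hTm (g + h'.eval 1) (g + h''.eval 1) y e3 e5 with h1 | h1
    · refine ⟨h', 1, a1, a2, hdC _ a3, by simp, a4, ?_, a5⟩
      rw [one_mul]
      exact h1
    · refine ⟨h'', 1, b1, b2, ?_, by simp, b4, ?_, b5⟩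
      · have e6 : h'' - h₀ = (h'' - (h₀ + C (T : ℤ))) + C (T : ℤ) := by ring
        rw [e6]
        exact dvd_add (hdC _ b3) dvd_rfl
      · rw [one_mul]
        exact h1

theorem eval_dvd {T : ℤ} {p : ℤ[X]} (x : ℤ) (h : C T ∣ p) : T ∣ p.eval x := by
  obtain ⟨q, rfl⟩ := h
  rw [eval_mul, eval_C]
  exact dvd_mul_right _ _

theorem t_AR : S_EIS → S_SHP → S_ST → S_RTZ → S_UNQ → S_HZ → S_AR := by
  intro hEIS hSHP hST hRTZ hUNQ hHZ m e j ρ hm hje hρ hpar
  classical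
  have he1 : 1 ≤ e := by omega
  have hje' : j < e := by omega
  obtain ⟨T, rs, g₀, r₀, h₀, hT, hBT, hrs, hg₀, hgn₀, hh₀, hhn₀, hr₀, hp1, hp2, hp3⟩ :=
    hEIS m e j (2 * m) hm hje'
  obtain ⟨b, gs, rr, hs, σ₀, hb, hgs, hgsn, hhs, hhsn, hrsd, hfs, hσ₀, w, hw1, hw2, hw3⟩ :=
    hSHP m e j ρ hm he1 hje' hρ hpar
  have : Fact T.Prime := ⟨hT⟩
  have hT2 : 2 < T := by omega
  have hTm : ¬ T ∣ m := fun h => by
    have := Nat.le_of_dvd (by omega) h
    omega
  have hT0 : (0 : ℝ) < T := by exact_mod_cast hT.pos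
  -- stability
  have hfsR : ∏ i, (X - C ((b i : ℚ) : ℝ)) =
      (gs.map (algebraMap ℚ ℝ)) ^ m + rr.map (algebraMap ℚ ℝ) := by
    have h1 := congrArg (Polynomial.map (algebraMap ℚ ℝ)) hfs
    rw [Polynomial.map_prod, Polynomial.map_add, Polynomial.map_pow] at h1
    rw [← h1]
    refine Finset.prod_congr rfl fun i _ => ?_
    rw [Polynomial.map_sub, Polynomial.map_X, Polynomial.map_C]
    rfl
  obtain ⟨δ, hδ, hst⟩ := hST m e j ρ (fun i => ((b i : ℚ) : ℝ)) (gs.map (algebraMap ℚ ℝ))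
    (rr.map (algebraMap ℚ ℝ)) (hs.map (algebraMap ℚ ℝ)) σ₀ hm he1 hje' (hgs.map _)
    (by rw [natDegree_map, hgsn]) (hhs.map _) (by rw [natDegree_map, hhsn])
    (by rw [degree_map]; exact hrsd) hfsR hσ₀
    ⟨w, hw1, fun i => by
      have := hw2 i
      rw [Polynomial.map_add, Polynomial.map_pow] at this
      exact this, hw3⟩
  -- integers near `Δ b i`
  obtain ⟨Δ, hΔ⟩ := exists_nat_gt ((T : ℝ) / δ)
  have hΔ0 : (0 : ℝ) < Δ := lt_trans (by positivity) hΔ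
  have hΔ1 : (1 : ℝ) ≤ Δ := by
    have : 0 < Δ := by exact_mod_cast hΔ0
    exact_mod_cast this
  let a₀ : Fin m × Fin e → ℤ := fun i => rs i + T * ⌊((Δ : ℝ) * (b i : ℚ) - rs i) / T⌋
  have haT : ∀ i, (T : ℤ) ∣ a₀ i - rs i := fun i => ⟨⌊((Δ : ℝ) * (b i : ℚ) - rs i) / T⌋, by
    simp only [a₀]; ring⟩
  have hacl : ∀ i, |(a₀ i : ℝ) / Δ - ((b i : ℚ) : ℝ)| < δ := by
    intro i
    set x : ℝ := ((Δ : ℝ) * (b i : ℚ) - rs i) / T with hx
    have h1 := Int.floor_le x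
    have h2 := Int.lt_floor_add_one x
    have h3 : (T : ℝ) * x = Δ * (b i : ℚ) - rs i := by rw [hx]; field_simp
    have h4 : (a₀ i : ℝ) = rs i + T * (⌊x⌋ : ℝ) := by
      simp only [a₀]
      push_cast
      rfl
    have h5 : (a₀ i : ℝ) - Δ * (b i : ℚ) = T * ((⌊x⌋ : ℝ) - x) := by rw [h4, mul_sub, h3]; ring
    have h6 : |(a₀ i : ℝ) - Δ * (b i : ℚ)| ≤ T := by
      rw [h5, abs_mul, abs_of_pos hT0]
      have : |(⌊x⌋ : ℝ) - x| ≤ 1 := by rw [abs_le]; constructor <;> linarith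
      nlinarith
    have h7 : (a₀ i : ℝ) / Δ - ((b i : ℚ) : ℝ) = ((a₀ i : ℝ) - Δ * (b i : ℚ)) / Δ := by
      field_simp
    rw [h7, abs_div, abs_of_pos hΔ0, div_lt_iff₀ hΔ0]
    rw [div_lt_iff₀ hδ] at hΔ
    linarith
  have hane : ∀ i i', i ≠ i' → ¬ (T : ℤ) ∣ a₀ i - a₀ i' := by
    intro i i' h hd
    apply hrs i i' h
    have h1 := dvd_sub (dvd_sub (dvd_neg.2 hd) (dvd_neg.2 (haT i))) (haT i')
    have h2 : -(a₀ i - a₀ i') - -(a₀ i - rs i) - (a₀ i' - rs i') = -(rs i - rs i') := by ring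
    rw [h2] at h1
    exact (dvd_neg.1 h1)
  have hainj : Function.Injective a₀ := by
    intro i i' h
    by_contra hne
    apply hane i i' hne
    rw [h, sub_self]
    exact dvd_zero _
  -- the modulus
  let W : ℕ := 2 * m * ∏ i, ∏ i', (if i = i' then 1 else (a₀ i - a₀ i').natAbs)
  have hfac : ∀ i i', (if i = i' then 1 else (a₀ i - a₀ i').natAbs) ≠ 0 := by
    intro i i'
    split_ifs with h
    · exact one_ne_zero
    · rw [Int.natAbs_ne_zero, sub_ne_zero]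
      exact fun h' => h (hainj h')
  have hW : 0 < W := by
    refine Nat.pos_of_ne_zero (mul_ne_zero (by omega) ?_)
    exact Finset.prod_ne_zero_iff.2 fun i _ => Finset.prod_ne_zero_iff.2 fun i' _ => hfac i i'
  have h2W : 2 ∣ W := Dvd.dvd.mul_right (Dvd.intro _ rfl) _
  have hmW : m ∣ W := Dvd.dvd.mul_right (Dvd.intro_left _ rfl) _
  have hdW : ∀ i i', i ≠ i' → (a₀ i - a₀ i') ∣ (W : ℤ) := by
    intro i i' h
    rw [← Int.natAbs_dvd]
    have h1 : (a₀ i - a₀ i').natAbs ∣ ∏ i'', (if i = i'' then 1 else (a₀ i - a₀ i'').natAbs) := by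
      have := Finset.dvd_prod_of_mem (fun i'' => if i = i'' then 1 else (a₀ i - a₀ i'').natAbs)
        (Finset.mem_univ i')
      simpa only [h, if_false] using this
    have h2 : (∏ i'', (if i = i'' then 1 else (a₀ i - a₀ i'').natAbs)) ∣
        ∏ i, ∏ i', (if i = i' then 1 else (a₀ i - a₀ i').natAbs) :=
      Finset.dvd_prod_of_mem (fun i => ∏ i', (if i = i' then 1 else (a₀ i - a₀ i').natAbs))
        (Finset.mem_univ i)
    exact Int.natCast_dvd_natCast.2 ((h1.trans h2).trans (Dvd.intro_left _ rfl))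
  have hTWn : ¬ T ∣ W := by
    intro h
    rcases (hT.dvd_mul).1 h with h1 | h1
    · rcases (hT.dvd_mul).1 h1 with h2 | h2
      · have := Nat.le_of_dvd (by omega) h2
        omega
      · exact hTm h2
    · obtain ⟨i, _, h2⟩ := hT.prime.exists_mem_finset_dvd h1
      obtain ⟨i', _, h3⟩ := hT.prime.exists_mem_finset_dvd h2
      split_ifs at h3 with h4
      · exact hT.one_lt.ne' (Nat.dvd_one.1 h3)
      · exact hane i i' h4 (Int.natCast_dvd.2 h3)
  have hTW : Nat.Coprime T W := (Nat.Prime.coprime_iff_not_dvd hT).2 hTWn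
  have hW2 : 2 ≤ W := Nat.le_of_dvd hW h2W
  obtain ⟨N₀, hN⟩ := hRTZ m e a₀ hm
  obtain ⟨Λ₀, hΛ₀, hch⟩ := choice m e j T W hT hTm hW hTW hHZ (hs.map (algebraMap ℚ ℝ)) h₀ δ
    (hhs.map _) (by rw [natDegree_map, hhsn]) hh₀ hhn₀ hδ
  obtain ⟨t₀, ht₀⟩ := exists_nat_gt Λ₀
  let t : ℕ := N₀ + t₀ + 1
  let L : ℤ := (W : ℤ) ^ (t * (T - 1))
  have hW0 : (W : ℤ) ≠ 0 := by exact_mod_cast hW.ne'
  have hL : L ≠ 0 := pow_ne_zero _ hW0
  have htT : t ≤ t * (T - 1) := Nat.le_mul_of_pos_right _ (by omega)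
  have hWL : (W : ℤ) ∣ L := dvd_pow_self _ (by
    have : 1 ≤ t := by simp only [t]; omega
    omega)
  have hmL : (m : ℤ) ^ N₀ ∣ L := by
    have h1 : (m : ℤ) ∣ W := Int.natCast_dvd_natCast.2 hmW
    exact (pow_dvd_pow_of_dvd h1 N₀).trans (pow_dvd_pow _ (by
      have : N₀ ≤ t := by simp only [t]; omega
      omega))
  have hLT : ((L : ℤ) : ZMod T) = 1 := by
    have h1 : ((W : ℕ) : ZMod T) ≠ 0 := fun h => hTWn ((ZMod.natCast_eq_zero_iff _ _).1 h)
    simp only [L]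
    push_cast
    rw [mul_comm, pow_mul, ZMod.pow_card_sub_one_eq_one h1, one_pow]
  have hLbig : (t : ℝ) ≤ (L : ℝ) := by
    have h1 : (t : ℕ) ≤ W ^ (t * (T - 1)) := by
      calc t ≤ 2 ^ t := Nat.lt_two_pow_self.le
        _ ≤ W ^ t := Nat.pow_le_pow_left hW2 _
        _ ≤ W ^ (t * (T - 1)) := Nat.pow_le_pow_right hW htT
    have h2 : (L : ℝ) = ((W ^ (t * (T - 1)) : ℕ) : ℝ) := by
      simp only [L]
      push_cast
      rfl
    rw [h2]
    exact_mod_cast h1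
  have htR : Λ₀ < t := by
    have : (t₀ : ℝ) ≤ t := by
      have : t₀ ≤ t := by simp only [t]; omega
      exact_mod_cast this
    linarith
  have hL0 : (0 : ℝ) < L := by linarith
  have hL0' : (L : ℝ) ≠ 0 := hL0.ne'
  set Λ : ℝ := Δ * L with hΛ
  have hΛ0 : 0 < Λ := by positivity
  have hΛbig : Λ₀ < Λ := by
    have : (L : ℝ) ≤ Δ * L := by nlinarith
    linarith
  obtain ⟨g, r, hg, hgn, hr, hf⟩ := hN L hL hmL
  -- congruences modulo `T`
  have hcong : C (T : ℤ) ∣ (g ^ m + r) - (g₀ ^ m + r₀) := by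
    rw [← hf]
    have h1 : C (T : ℤ) ∣ ∏ i, (X - C (L * a₀ i)) - ∏ i, (X - C (rs i)) := by
      rw [cdvd, Polynomial.map_sub, Polynomial.map_prod, Polynomial.map_prod, sub_eq_zero]
      refine Finset.prod_congr rfl fun i _ => ?_
      rw [Polynomial.map_sub, Polynomial.map_sub, Polynomial.map_X, Polynomial.map_C,
        Polynomial.map_C]
      congr 2
      show ((L * a₀ i : ℤ) : ZMod T) = ((rs i : ℤ) : ZMod T)
      rw [Int.cast_mul, hLT, one_mul]
      have := (ZMod.intCast_zmod_eq_zero_iff_dvd _ T).2 (haT i)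
      rw [Int.cast_sub] at this
      exact sub_eq_zero.1 this
    have h2 := dvd_add h1 hp1
    have h3 : ∏ i, (X - C (L * a₀ i)) - ∏ i, (X - C (rs i)) +
        (∏ i, (X - C (rs i)) - (g₀ ^ m + r₀)) = ∏ i, (X - C (L * a₀ i)) - (g₀ ^ m + r₀) := by ring
    rwa [h3] at h2
  obtain ⟨hgg, hrr⟩ := hUNQ m e T g r g₀ r₀ hm hT hTm hg hgn hr hg₀ hgn₀ hr₀ hcong
  have hone : (T : ℤ) ∣ g.eval 1 + h₀.eval 1 - 1 := by
    have h1 := eval_dvd 1 hgg
    have h2 := eval_dvd 1 hp2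
    rw [eval_sub] at h1
    rw [eval_sub, eval_add, eval_pow, eval_X, one_pow] at h2
    have h3 := dvd_add h1 h2
    have h4 : g.eval 1 - g₀.eval 1 + (g₀.eval 1 + h₀.eval 1 - 1) = g.eval 1 + h₀.eval 1 - 1 := by
      ring
    rwa [h4] at h3
  obtain ⟨h', s, c1, c2, c3, c4, c5, c6, c7⟩ := hch Λ hΛbig (g.eval 1) (g.eval 1 ^ m + r.eval 1) hone
  -- the data
  have hme : 2 * 2 ≤ m * e := Nat.mul_le_mul hm (by omega)
  have hk : m * e - 2 + 2 = m * e := by omega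
  let ε : Fin (m * e - 2 + 2) ≃ Fin m × Fin e := (finCongr hk).trans finProdFinEquiv.symm
  have hsT : ((s : ℤ) : ZMod T) = 1 := by
    have := (ZMod.intCast_zmod_eq_zero_iff_dvd _ T).2 c4
    push_cast at this
    exact sub_eq_zero.1 this
  have hmapg : g.map (Int.castRingHom (ZMod T)) = g₀.map (Int.castRingHom (ZMod T)) := by
    have := (cdvd T _).1 hgg
    rwa [Polynomial.map_sub, sub_eq_zero] at this
  have hmapr : r.map (Int.castRingHom (ZMod T)) = r₀.map (Int.castRingHom (ZMod T)) := by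
    have := (cdvd T _).1 hrr
    rwa [Polynomial.map_sub, sub_eq_zero] at this
  have hmaph : h'.map (Int.castRingHom (ZMod T)) = h₀.map (Int.castRingHom (ZMod T)) := by
    have := (cdvd T _).1 c3
    rwa [Polynomial.map_sub, sub_eq_zero] at this
  let D : DatL m e j (m * e - 2) :=
    { a := fun i => L * a₀ (ε i)
      g := g
      r := r
      h := h'
      T := T
      b := 1
      s := s
      hm := hm
      hje := hje
      hk := hk
      ha := fun i i' h => ε.injective (hainj (mul_left_cancel₀ hL h))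
      hg := hg
      hgn := hgn
      hh := c1
      hhn := c2
      hr := hr
      hf := (Equiv.prod_comp ε (fun p => X - C (L * a₀ p))).trans hf
      hco := by
        intro i q hq hor hdiv
        have hqW : (q : ℤ) ∣ W := by
          rcases hor with rfl | ⟨i', i'', hne, hd⟩
          · exact Int.natCast_dvd_natCast.2 h2W
          · have hqp : Prime (q : ℤ) := Nat.prime_iff_prime_int.1 hq
            have hd' : (q : ℤ) ∣ L * (a₀ (ε i') - a₀ (ε i'')) := by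
              rw [mul_sub]
              exact hd
            rcases hqp.dvd_or_dvd hd' with h1 | h1
            · exact hqp.dvd_of_dvd_pow h1
            · exact h1.trans (hdW _ _ (fun h => hne (ε.injective h)))
        have hqa : (q : ℤ) ∣ L * a₀ (ε i) - 0 := by
          rw [sub_zero]
          exact (hqW.trans hWL).mul_right _
        have h1 := hqa.trans (sub_dvd_eval_sub (L * a₀ (ε i)) 0 h')
        have h2 := hqW.trans c5
        have h3 := dvd_sub hdiv (dvd_add h1 h2)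
        have h4 : h'.eval (L * a₀ (ε i)) -
            (h'.eval (L * a₀ (ε i)) - h'.eval 0 + (h'.eval 0 - 1)) = 1 := by ring
        rw [h4] at h3
        exact (Nat.prime_iff_prime_int.1 hq).not_dvd_one h3
      hT := hT
      hT2 := by omega
      hTa := by
        intro i i' hne hd
        have hTp : Prime (T : ℤ) := Nat.prime_iff_prime_int.1 hT
        have hd' : (T : ℤ) ∣ L * (a₀ (ε i) - a₀ (ε i')) := by
          rw [mul_sub]
          exact hd
        rcases hTp.dvd_or_dvd hd' with h1 | h1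
        · have h2 := (ZMod.intCast_zmod_eq_zero_iff_dvd _ T).2 h1
          rw [hLT] at h2
          exact one_ne_zero h2
        · exact hane _ _ (fun h => hne (ε.injective h)) h1
      hTm := by
        intro hd
        have h1 := (ZMod.intCast_zmod_eq_zero_iff_dvd _ T).2 hd
        push_cast at h1
        rw [hsT, mul_one] at h1
        exact hTm ((ZMod.natCast_eq_zero_iff _ _).1 h1)
      hE1 := by
        have h1 := (cdvd T _).1 hp3
        rw [cdvd]
        have hCs : (C s).map (Int.castRingHom (ZMod T)) = 1 := by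
          rw [Polynomial.map_C]
          show C ((s : ℤ) : ZMod T) = 1
          rw [hsT, C_1]
        have hCms : (C ((m : ℤ) * s)).map (Int.castRingHom (ZMod T)) =
            (C (m : ℤ)).map (Int.castRingHom (ZMod T)) := by
          rw [C_mul, Polynomial.map_mul, hCs, mul_one]
        rw [← h1]
        simp only [Polynomial.map_sub, Polynomial.map_add, Polynomial.map_pow, Polynomial.map_mul,
          hCs, hCms, hmapg, hmapr, hmaph, one_mul, C_1]
      hE2 := by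
        rw [eval_sub, eval_pow, eval_add, eval_mul, eval_C, eval_add, eval_pow]
        exact c6 }
  set δ' : ℝ := min δ (σ₀ / 2) with hδ'
  have hδ'0 : 0 < δ' := lt_min hδ (by positivity)
  have hδ'1 : δ' ≤ δ := min_le_left _ _
  have hδ'2 : δ' ≤ σ₀ / 2 := min_le_right _ _
  have hΛp : 0 < Λ ^ (e - j) := by positivity
  refine ⟨m * e - 2, D, (σ₀ - δ') * Λ ^ (e - j), (σ₀ + δ') * Λ ^ (e - j),
    mul_pos (by linarith) hΛp, by nlinarith, fun σ h1 h2 => ?_⟩
  have hcount := count m e j ρ (fun i => ((b i : ℚ) : ℝ)) (hs.map (algebraMap ℚ ℝ)) σ₀ δ hje' hst hδ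
    (by rw [natDegree_map, hhsn]) (fun i => ((L * a₀ i : ℤ) : ℝ)) (g.map (algebraMap ℤ ℝ))
    (r.map (algebraMap ℤ ℝ)) (h'.map (algebraMap ℤ ℝ)) Λ hΛ0 (hg.map _)
    (by rw [hg.natDegree_map, hgn]) (c1.map _) (by rw [c1.natDegree_map, c2])
    (lt_of_le_of_lt degree_map_le hr) (by
      have h3 := congrArg (Polynomial.map (algebraMap ℤ ℝ)) hf
      rw [Polynomial.map_prod, Polynomial.map_add, Polynomial.map_pow] at h3
      rw [← h3]
      refine Finset.prod_congr rfl fun i _ => ?_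
      rw [Polynomial.map_sub, Polynomial.map_X, Polynomial.map_C]
      rfl)
    (fun i => by
      have h3 : ((L * a₀ i : ℤ) : ℝ) / Λ = (a₀ i : ℝ) / Δ := by
        rw [hΛ]
        push_cast
        field_simp
      rw [h3]
      exact hacl i)
    (fun i hi => by
      have := c7 i hi
      rw [coeff_map]
      exact this) σ (by
      rw [abs_lt]
      have h3 : σ₀ - δ' < σ / Λ ^ (e - j) := by rw [lt_div_iff₀ hΛp]; exact h1
      have h4 : σ / Λ ^ (e - j) < σ₀ + δ' := by rw [div_lt_iff₀ hΛp]; exact h2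
      constructor <;> linarith)
  simp only [eval_map_algebraMap] at hcount
  exact hcount

end Pool.Agent.J4H51.LV
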